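import Mathlib

set_option autoImplicit false

namespace Pool.Agent.Helper75.NumSgp

open Finset MvPolynomial

/-- every element of an additive submonoid of `ℕ` is a combination of its atoms. -/
theorem exists_factorization (S : AddSubmonoid ℕ) {e : ℕ} (g : Fin e → ℕ)
    (hg : Set.range g = {x : ℕ | x ∈ S ∧ x ≠ 0 ∧ ∀ a ∈ S, ∀ b ∈ S, a + b = x → a = 0 ∨ b = 0}) :
    ∀ n : ℕ, n ∈ S → ∃ u : Fin e → ℕ, ∑ i, u i * g i = n := by
  intro n
  induction n using Nat.strong_induction_on with
  | _ n ih =>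
    intro hn
    by_cases h0 : n = 0
    · exact ⟨fun _ => 0, by simp [h0]⟩
    · by_cases hat : ∀ a ∈ S, ∀ b ∈ S, a + b = n → a = 0 ∨ b = 0
      · have : n ∈ Set.range g := by
          rw [hg]; exact ⟨hn, h0, hat⟩
        obtain ⟨i, hi⟩ := this
        refine ⟨fun j => if j = i then 1 else 0, ?_⟩
        simp [hi]
      · push Not at hat
        obtain ⟨a, ha, b, hb, hab, ha0, hb0⟩ := hat
        obtain ⟨u, hu⟩ := ih a (by omega) ha
        obtain ⟨v, hv⟩ := ih b (by omega) hb
        refine ⟨fun i => u i + v i, ?_⟩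
        simp only [add_mul, Finset.sum_add_distrib, hu, hv, hab]

theorem sum_mem (S : AddSubmonoid ℕ) {e : ℕ} (g : Fin e → ℕ) (hgS : ∀ i, g i ∈ S)
    (u : Fin e → ℕ) : ∑ i, u i * g i ∈ S := by
  refine S.sum_mem (fun i _ => ?_)
  rw [← smul_eq_mul]
  exact S.nsmul_mem (hgS i) _

/-- If `i` occurs `≥ t` times then subtracting `t * g i` stays in `S`. -/
theorem sub_mem (S : AddSubmonoid ℕ) {e : ℕ} (g : Fin e → ℕ) (hgS : ∀ i, g i ∈ S)
    (u : Fin e → ℕ) (i : Fin e) (t : ℕ) (ht : t ≤ u i) :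
    ∃ s ∈ S, ∑ j, u j * g j = s + t * g i := by
  refine ⟨∑ j, (if j = i then u i - t else u j) * g j, sum_mem S g hgS _, ?_⟩
  rw [← Finset.add_sum_erase _ _ (Finset.mem_univ i),
    ← Finset.add_sum_erase (a := i) _ (fun j => (if j = i then u i - t else u j) * g j)
      (Finset.mem_univ i)]
  have h1 : ∑ x ∈ univ.erase i, (if x = i then u i - t else u x) * g x
      = ∑ x ∈ univ.erase i, u x * g x := by
    refine Finset.sum_congr rfl (fun x hx => ?_)
    rw [if_neg (Finset.ne_of_mem_erase hx)]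
  rw [h1]
  simp only [if_true]
  have : u i * g i = (u i - t) * g i + t * g i := by
    rw [← add_mul, Nat.sub_add_cancel ht]
  omega

/-- The Wilf-type inequality: `2 (F + m) ≤ 2 e η + e (m - 1)`, for `m = g i0`. -/
theorem wilf_type (S : AddSubmonoid ℕ) (F : ℕ) (hF : F ∉ S) (hF' : ∀ n : ℕ, F < n → n ∈ S)
    (e : ℕ) (g : Fin e → ℕ)
    (hg : Set.range g = {x : ℕ | x ∈ S ∧ x ≠ 0 ∧ ∀ a ∈ S, ∀ b ∈ S, a + b = x → a = 0 ∨ b = 0})
    (i0 : Fin e) :
    2 * (F + g i0) ≤ 2 * (e * Set.ncard {γ : ℕ | γ ∈ S ∧ γ < F}) + e * (g i0 - 1) := by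
  classical
  have hgS : ∀ i, g i ∈ S := by
    intro i
    have : g i ∈ Set.range g := ⟨i, rfl⟩
    rw [hg] at this; exact this.1
  have hg0 : ∀ i, g i ≠ 0 := by
    intro i
    have : g i ∈ Set.range g := ⟨i, rfl⟩
    rw [hg] at this; exact this.2.1
  set m := g i0 with hm
  have hm0 : m ≠ 0 := hg0 i0
  have : NeZero m := ⟨hm0⟩
  have hmpos : 0 < m := Nat.pos_of_ne_zero hm0
  -- the Apery set
  have hex : ∀ r : ZMod m, ∃ n : ℕ, n ∈ S ∧ (n : ZMod m) = r := by
    intro r
    refine ⟨r.val + m * (F + 1), hF' _ ?_, by simp⟩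
    have : F + 1 ≤ m * (F + 1) := Nat.le_mul_of_pos_left _ hmpos
    omega
  let w : ZMod m → ℕ := fun r => Nat.find (hex r)
  have hwS : ∀ r, w r ∈ S := fun r => (Nat.find_spec (hex r)).1
  have hwr : ∀ r, (w r : ZMod m) = r := fun r => (Nat.find_spec (hex r)).2
  have hwmin : ∀ r n, n ∈ S → (n : ZMod m) = r → w r ≤ n := fun r n h1 h2 =>
    Nat.find_min' (hex r) ⟨h1, h2⟩
  set M := F + m with hM
  have hwM : ∀ r, w r ≤ M := by
    intro r
    by_contra hlt
    push Not at hlt
    have h1 : w r - m ∈ S := hF' _ (by omega)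
    have h2 : ((w r - m : ℕ) : ZMod m) = r := by
      rw [Nat.cast_sub (by omega), hwr]; simp
    have := hwmin r _ h1 h2
    omega
  -- count of elements below F
  have hcount : ∑ r : ZMod m, (M - w r) / m ≤ Set.ncard {γ : ℕ | γ ∈ S ∧ γ < F} := by
    have hfin : {γ : ℕ | γ ∈ S ∧ γ < F}.Finite :=
      (Set.finite_lt_nat F).subset (fun x hx => hx.2)
    have h1 : ∑ r : ZMod m, (M - w r) / m
        = (Finset.univ.sigma (fun r : ZMod m => Finset.range ((M - w r) / m))).card := by
      rw [Finset.card_sigma]; simp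
    rw [h1, Set.ncard_eq_toFinset_card _ hfin]
    refine Finset.card_le_card_of_injOn (fun p => w p.1 + p.2 * m) ?_ ?_
    · rintro ⟨r, k⟩ hp
      simp only [Finset.coe_sigma, Set.mem_sigma_iff, Finset.coe_range, Set.mem_Iio,
        Finset.mem_coe, Finset.mem_univ, true_and] at hp
      simp only [Set.Finite.coe_toFinset, Set.mem_ofPred_eq]
      have hk : (k + 1) * m ≤ M - w r := by
        calc (k + 1) * m ≤ ((M - w r) / m) * m := Nat.mul_le_mul_right _ hp
          _ ≤ M - w r := Nat.div_mul_le_self _ _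
      have hwr' := hwM r
      have hS : w r + k * m ∈ S := by
        refine S.add_mem (hwS r) ?_
        rw [← smul_eq_mul]; exact S.nsmul_mem (hgS i0) _
      refine ⟨hS, ?_⟩
      have hne : w r + k * m ≠ F := fun h => hF (h ▸ hS)
      have : (k + 1) * m = k * m + m := by ring
      omega
    · rintro ⟨r, k⟩ hp ⟨r', k'⟩ hp' heq
      simp only at heq
      have hr : r = r' := by
        have := congrArg (fun n : ℕ => (n : ZMod m)) heq
        simpa [hwr] using this
      subst hr
      have : k * m = k' * m := by omega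
      have hk : k = k' := Nat.eq_of_mul_eq_mul_right hmpos this
      subst hk
      rfl
  -- factorizations
  choose u hu using fun r => exists_factorization S g hg (w r) (hwS r)
  have hu0 : ∀ r, u r i0 = 0 := by
    intro r
    by_contra hne
    obtain ⟨s, hs, hse⟩ := sub_mem S g hgS (u r) i0 1 (Nat.one_le_iff_ne_zero.mpr hne)
    rw [hu r] at hse
    have h2 : ((s : ℕ) : ZMod m) = r := by
      have := congrArg (fun n : ℕ => (n : ZMod m)) hse
      simp only [Nat.cast_add, hwr, one_mul] at this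
      rw [this, ← hm]; simp
    have := hwmin r _ hs h2
    omega
  have hline : ∀ h : Fin e, g h * ∑ r, u r h ≤ ∑ r, (M - w r) := by
    intro h
    have h1 : ∑ r : ZMod m, u r h
        = (Finset.univ.sigma (fun r : ZMod m => Finset.Icc 1 (u r h))).card := by
      rw [Finset.card_sigma]; simp
    have h2 : ∑ r : ZMod m, (M - w r) / g h
        = (Finset.univ.sigma (fun r : ZMod m => Finset.Icc 1 ((M - w r) / g h))).card := by
      rw [Finset.card_sigma]; simp
    have h3 : (Finset.univ.sigma (fun r : ZMod m => Finset.Icc 1 (u r h))).card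
        ≤ (Finset.univ.sigma (fun r : ZMod m => Finset.Icc 1 ((M - w r) / g h))).card := by
      refine Finset.card_le_card_of_injOn (fun p => ⟨p.1 - (p.2 * g h : ℕ), p.2⟩) ?_ ?_
      · rintro ⟨r, t⟩ hp
        simp only [Finset.coe_sigma, Set.mem_sigma_iff, Finset.mem_coe, Finset.mem_univ, true_and,
          Finset.mem_Icc] at hp ⊢
        refine ⟨hp.1, ?_⟩
        rw [Nat.le_div_iff_mul_le (Nat.pos_of_ne_zero (hg0 h))]
        obtain ⟨s, hs, hse⟩ := sub_mem S g hgS (u r) h t hp.2
        rw [hu r] at hse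
        have hsr : ((s : ℕ) : ZMod m) = r - ((t * g h : ℕ) : ZMod m) := by
          have := congrArg (fun n : ℕ => (n : ZMod m)) hse
          simp only [hwr] at this
          rw [this]; push_cast; ring
        have h4 := hwmin _ _ hs hsr
        have h5 := hwM r
        omega
      · rintro ⟨r, t⟩ hp ⟨r', t'⟩ hp' heq
        simp only [Sigma.mk.injEq, heq_eq_eq] at heq
        obtain ⟨ha, hb⟩ := heq
        subst hb
        simp only [sub_left_inj] at ha
        subst ha
        rfl
    calc g h * ∑ r, u r h ≤ g h * ∑ r : ZMod m, (M - w r) / g h := by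
          rw [h1, h2]; exact Nat.mul_le_mul_left _ h3
      _ = ∑ r : ZMod m, g h * ((M - w r) / g h) := by rw [Finset.mul_sum]
      _ ≤ ∑ r, (M - w r) := Finset.sum_le_sum (fun r _ => Nat.mul_div_le _ _)
  -- total
  have htot : ∑ r, w r ≤ (e - 1) * ∑ r, (M - w r) := by
    have h1 : ∑ r, w r = ∑ h ∈ univ.erase i0, g h * ∑ r, u r h := by
      have : ∑ r, w r = ∑ h, g h * ∑ r, u r h := by
        simp_rw [Finset.mul_sum]
        rw [Finset.sum_comm]
        refine Finset.sum_congr rfl (fun r _ => ?_)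
        rw [← hu r]
        refine Finset.sum_congr rfl (fun h _ => ?_)
        ring
      rw [this, ← Finset.add_sum_erase _ _ (Finset.mem_univ i0)]
      simp [hu0]
    rw [h1]
    calc ∑ h ∈ univ.erase i0, g h * ∑ r, u r h ≤ ∑ h ∈ univ.erase i0, ∑ r, (M - w r) :=
          Finset.sum_le_sum (fun h _ => hline h)
      _ = (e - 1) * ∑ r, (M - w r) := by
          rw [Finset.sum_const, Finset.card_erase_of_mem (Finset.mem_univ _)]
          simp
  have hmM : m * M = ∑ r, w r + ∑ r, (M - w r) := by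
    rw [← Finset.sum_add_distrib]
    have : ∀ r ∈ (univ : Finset (ZMod m)), w r + (M - w r) = M := fun r _ => by
      have := hwM r; omega
    rw [Finset.sum_congr rfl this]
    simp [ZMod.card]
  have he : 1 ≤ e := Fin.pos_iff_nonempty.mpr ⟨i0⟩
  have hmM' : m * M ≤ e * ∑ r, (M - w r) := by
    obtain ⟨e', rfl⟩ : ∃ e', e = e' + 1 := ⟨e - 1, by omega⟩
    simp only [Nat.add_sub_cancel] at htot
    rw [add_mul, one_mul]
    omega
  -- residues
  have hres : ∑ r : ZMod m, (M - w r) % m = ∑ i ∈ range m, i := by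
    have h1 : ∀ r : ZMod m, (M - w r) % m = ((M : ZMod m) - r).val := by
      intro r
      rw [← ZMod.val_natCast, Nat.cast_sub (hwM r), hwr]
    simp_rw [h1]
    rw [show (∑ r : ZMod m, ((M : ZMod m) - r).val) = ∑ r : ZMod m, r.val from
      Equiv.sum_comp (Equiv.subLeft (M : ZMod m)) (fun r => r.val)]
    obtain ⟨m', hm'⟩ : ∃ m', m = m' + 1 := ⟨m - 1, by omega⟩
    rw [Finset.sum_range (fun i => i)]
    refine Finset.sum_bij (fun r _ => ⟨r.val, ZMod.val_lt r⟩) (fun _ _ => Finset.mem_univ _)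
      ?_ ?_ (fun _ _ => rfl)
    · intro a _ b _ hab
      exact ZMod.val_injective m (Fin.mk.inj_iff.mp hab)
    · intro b _
      exact ⟨(b.val : ZMod m), Finset.mem_univ _, by
        ext; simp [ZMod.val_natCast, Nat.mod_eq_of_lt b.isLt]⟩
  have hgauss : (∑ i ∈ range m, i) * 2 = m * (m - 1) := Finset.sum_range_id_mul_two m
  have hdivmod : ∑ r : ZMod m, (M - w r) = m * ∑ r : ZMod m, (M - w r) / m
      + ∑ r : ZMod m, (M - w r) % m := by
    rw [Finset.mul_sum, ← Finset.sum_add_distrib]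
    exact Finset.sum_congr rfl (fun r _ => (Nat.div_add_mod _ _).symm)
  have hfinal : m * (2 * M) ≤ m * (2 * (e * Set.ncard {γ : ℕ | γ ∈ S ∧ γ < F}) + e * (m - 1)) := by
    calc m * (2 * M) = 2 * (m * M) := by ring
      _ ≤ 2 * (e * ∑ r, (M - w r)) := Nat.mul_le_mul_left _ hmM'
      _ = 2 * (e * (m * ∑ r : ZMod m, (M - w r) / m)) + e * ((∑ i ∈ range m, i) * 2) := by
          rw [hdivmod, hres]; ring
      _ = 2 * (e * (m * ∑ r : ZMod m, (M - w r) / m)) + e * (m * (m - 1)) := by rw [hgauss]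
      _ = m * (2 * (e * ∑ r : ZMod m, (M - w r) / m) + e * (m - 1)) := by ring
      _ ≤ m * (2 * (e * Set.ncard {γ : ℕ | γ ∈ S ∧ γ < F}) + e * (m - 1)) := by
          gcongr
  exact Nat.le_of_mul_le_mul_left hfinal hmpos

theorem aeval_monomial_eq {K : Type*} [Field K] {e : ℕ} (g : Fin e → ℕ) (u : Fin e →₀ ℕ) (c : K) :
    MvPolynomial.aeval (fun i : Fin e => (Polynomial.X : Polynomial K) ^ g i) (monomial u c)
      = Polynomial.C c * Polynomial.X ^ (∑ i, u i * g i) := by
  rw [MvPolynomial.aeval_monomial]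
  congr 1
  rw [Finsupp.prod_fintype _ _ (fun i => by simp), ← Finset.prod_pow_eq_pow_sum]
  refine Finset.prod_congr rfl (fun i _ => ?_)
  rw [← pow_mul, mul_comm]

theorem weight_eq {e : ℕ} (g : Fin e → ℕ) (u : Fin e →₀ ℕ) :
    Finsupp.weight g u = ∑ i, u i * g i := by
  rw [Finsupp.weight_apply, Finsupp.sum_fintype _ _ (fun i => by simp)]
  simp

/-- degree bound for minimal generators of the toric ideal. -/
theorem degree_bound {K : Type*} [Field K] (S : AddSubmonoid ℕ) (F : ℕ)
    (hF' : ∀ n : ℕ, F < n → n ∈ S)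
    (e : ℕ) (g : Fin e → ℕ)
    (hgen : ∀ n : ℕ, n ∈ S → ∃ u : Fin e → ℕ, ∑ i, u i * g i = n)
    (f : MvPolynomial (Fin e) K) (d : ℕ) (hd : 0 < d)
    (hker : f ∈ RingHom.ker
      (MvPolynomial.aeval (fun i : Fin e => (Polynomial.X : Polynomial K) ^ g i)))
    (hhom : MvPolynomial.IsWeightedHomogeneous (fun i : Fin e => g i) f d)
    (hnot : f ∉ Ideal.span (Set.range (MvPolynomial.X : Fin e → MvPolynomial (Fin e) K)) *
      RingHom.ker (MvPolynomial.aeval (fun i : Fin e => (Polynomial.X : Polynomial K) ^ g i))) :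
    ∃ i j : Fin e, i ≠ j ∧ d ≤ F + g i + g j := by
  classical
  by_contra hcon
  push Not at hcon
  apply hnot
  set I : Ideal (MvPolynomial (Fin e) K) := RingHom.ker
      (MvPolynomial.aeval (fun i : Fin e => (Polynomial.X : Polynomial K) ^ g i)) with hI
  set J : Ideal (MvPolynomial (Fin e) K) :=
    Ideal.span (Set.range (MvPolynomial.X : Fin e → MvPolynomial (Fin e) K)) with hJ
  have hXJ : ∀ i, (X i : MvPolynomial (Fin e) K) ∈ J := fun i => Ideal.subset_span ⟨i, rfl⟩
  have hdiff : ∀ u v : Fin e →₀ ℕ, ∑ i, u i * g i = ∑ i, v i * g i →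
      (monomial u (1 : K) - monomial v (1 : K)) ∈ I := by
    intro u v huv
    rw [hI, RingHom.mem_ker, map_sub, aeval_monomial_eq, aeval_monomial_eq, huv, sub_self]
  have hsub : ∀ (u : Fin e →₀ ℕ) (i : Fin e), u i ≠ 0 →
      monomial u (1 : K) = X i * monomial (u - Finsupp.single i 1) (1 : K) := by
    intro u i hu
    rw [X, monomial_mul, one_mul]
    congr 1
    rw [add_tsub_cancel_of_le]
    rw [Finsupp.single_le_iff]; omega
  have hsubw : ∀ (u : Fin e →₀ ℕ) (i : Fin e), u i ≠ 0 →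
      ∑ j, u j * g j = ∑ j, (u - Finsupp.single i 1 : Fin e →₀ ℕ) j * g j + g i := by
    intro u i hu
    have h1 : u = (u - Finsupp.single i 1) + Finsupp.single i 1 := by
      rw [tsub_add_cancel_of_le]
      rw [Finsupp.single_le_iff]; omega
    have h2 : ∀ j, u j = (u - Finsupp.single i 1 : Fin e →₀ ℕ) j + (Finsupp.single i 1 : Fin e →₀ ℕ) j := by
      intro j
      conv_lhs => rw [h1]
      rfl
    calc ∑ j, u j * g j = ∑ j, ((u - Finsupp.single i 1 : Fin e →₀ ℕ) j
          + (Finsupp.single i 1 : Fin e →₀ ℕ) j) * g j :=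
          Finset.sum_congr rfl (fun j _ => by rw [← h2 j])
      _ = _ := by
          simp only [add_mul, Finset.sum_add_distrib]
          congr 1
          simp [Finsupp.single_apply]
  have hshare : ∀ (u v : Fin e →₀ ℕ) (i : Fin e), u i ≠ 0 → v i ≠ 0 →
      ∑ i, u i * g i = ∑ i, v i * g i →
      (monomial u (1 : K) - monomial v (1 : K)) ∈ J * I := by
    intro u v i hu hv huv
    rw [hsub u i hu, hsub v i hv, ← mul_sub]
    refine Ideal.mul_mem_mul (hXJ i) (hdiff _ _ ?_)
    have h1 := hsubw u i hu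
    have h2 := hsubw v i hv
    omega
  have hall : ∀ (u v : Fin e →₀ ℕ), ∑ i, u i * g i = d → ∑ i, v i * g i = d →
      (monomial u (1 : K) - monomial v (1 : K)) ∈ J * I := by
    intro u v hu hv
    have hex : ∀ u : Fin e →₀ ℕ, ∑ i, u i * g i = d → ∃ i, u i ≠ 0 := by
      intro u hu
      by_contra h
      push Not at h
      simp [h] at hu
      omega
    obtain ⟨i, hi⟩ := hex u hu
    obtain ⟨j, hj⟩ := hex v hv
    by_cases hij : i = j
    · subst hij
      exact hshare u v i hi hj (hu.trans hv.symm)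
    · have h1 := hcon i j hij
      obtain ⟨c, hc⟩ := hgen (d - g i - g j) (hF' _ (by omega))
      set c' : Fin e →₀ ℕ := Finsupp.equivFunOnFinite.symm c with hc'
      have hc'' : ∀ k, c' k = c k := fun k => rfl
      let x : Fin e →₀ ℕ := c' + Finsupp.single i 1 + Finsupp.single j 1
      have hx : ∑ k, x k * g k = d := by
        have : ∀ k, x k * g k = c k * g k + (Finsupp.single i 1 : Fin e →₀ ℕ) k * g k
            + (Finsupp.single j 1 : Fin e →₀ ℕ) k * g k := by
          intro k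
          simp only [x, Finsupp.add_apply, hc'']
          ring
        simp_rw [this, Finset.sum_add_distrib, hc]
        simp [Finsupp.single_apply]
        omega
      have hxi : x i ≠ 0 := by simp [x]
      have hxj : x j ≠ 0 := by simp [x]
      have h2 := hshare u x i hi hxi (hu.trans hx.symm)
      have h3 := hshare x v j hxj hj (hx.trans hv.symm)
      have := (J * I).add_mem h2 h3
      simpa using this
  have hsupp : ∀ u ∈ f.support, ∑ i, u i * g i = d := by
    intro u hu
    rw [← weight_eq]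
    exact hhom (mem_support_iff.mp hu)
  by_cases hf0 : f = 0
  · rw [hf0]; exact (J * I).zero_mem
  obtain ⟨v0, hv0⟩ := Finset.nonempty_iff_ne_empty.mpr (fun h => hf0 (support_eq_empty.mp h))
  have hsum0 : ∑ u ∈ f.support, coeff u f = 0 := by
    have h1 := hker
    rw [hI, RingHom.mem_ker] at h1
    rw [f.as_sum, map_sum] at h1
    have h2 : ∀ u ∈ f.support, MvPolynomial.aeval
        (fun i : Fin e => (Polynomial.X : Polynomial K) ^ g i) (monomial u (coeff u f))
        = Polynomial.C (coeff u f) * Polynomial.X ^ d := by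
      intro u hu
      rw [aeval_monomial_eq, hsupp u hu]
    rw [Finset.sum_congr rfl h2, ← Finset.sum_mul, ← map_sum] at h1
    have h3 : Polynomial.C (∑ u ∈ f.support, coeff u f) = 0 := by
      rcases mul_eq_zero.mp h1 with h | h
      · exact h
      · exact absurd h (pow_ne_zero _ Polynomial.X_ne_zero)
    exact Polynomial.C_eq_zero.mp h3
  have hfe : f = ∑ u ∈ f.support, C (coeff u f) * (monomial u (1 : K) - monomial v0 (1 : K)) := by
    simp_rw [mul_sub, Finset.sum_sub_distrib, ← Finset.sum_mul, ← map_sum]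
    rw [hsum0, map_zero, zero_mul, sub_zero]
    conv_lhs => rw [f.as_sum]
    refine Finset.sum_congr rfl (fun u _ => ?_)
    rw [C_mul_monomial, mul_one]
  rw [hfe]
  refine Ideal.sum_mem _ (fun u hu => Ideal.mul_mem_left _ _ (hall u v0 (hsupp u hu) (hsupp v0 hv0)))

/-- The degree bound for minimal generators of the toric ideal of a numerical semigroup. -/
theorem main {K : Type*} [Field K] (S : AddSubmonoid ℕ) (F : ℕ) (hF : F ∉ S)
    (hF' : ∀ n : ℕ, F < n → n ∈ S)
    (e : ℕ) (g : Fin e → ℕ)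
    (hinj : Function.Injective g)
    (hg : Set.range g = {x : ℕ | x ∈ S ∧ x ≠ 0 ∧ ∀ a ∈ S, ∀ b ∈ S, a + b = x → a = 0 ∨ b = 0})
    (f : MvPolynomial (Fin e) K) (d : ℕ)
    (hker : f ∈ RingHom.ker
      (MvPolynomial.aeval (fun i : Fin e => (Polynomial.X : Polynomial K) ^ g i)))
    (hhom : MvPolynomial.IsWeightedHomogeneous (fun i : Fin e => g i) f d)
    (hnot : f ∉ Ideal.span (Set.range (MvPolynomial.X : Fin e → MvPolynomial (Fin e) K)) *
      RingHom.ker (MvPolynomial.aeval (fun i : Fin e => (Polynomial.X : Polynomial K) ^ g i))) :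
    d ≤ e * (Set.ncard {γ : ℕ | γ ∈ S ∧ γ < F} - 1) + ∑ i, g i + 1 := by
  classical
  rcases Nat.eq_zero_or_pos d with hd | hd
  · omega
  obtain ⟨i, j, hij, hdeg⟩ := degree_bound S F hF' e g (exists_factorization S g hg) f d hd
    hker hhom hnot
  have hg0 : ∀ i, g i ≠ 0 := by
    intro i
    have : g i ∈ Set.range g := ⟨i, rfl⟩
    rw [hg] at this; exact this.2.1
  -- the smallest generator
  obtain ⟨i0, _, hi0⟩ := Finset.exists_min_image (Finset.univ : Finset (Fin e)) g ⟨i, mem_univ _⟩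
  have hwilf := wilf_type S F hF hF' e g hg i0
  have hF0 : 0 < F := by
    rcases Nat.eq_zero_or_pos F with h | h
    · exact absurd S.zero_mem (h ▸ hF)
    · exact h
  have heta : 1 ≤ Set.ncard {γ : ℕ | γ ∈ S ∧ γ < F} := by
    have hfin : {γ : ℕ | γ ∈ S ∧ γ < F}.Finite :=
      (Set.finite_lt_nat F).subset (fun x hx => hx.2)
    rw [Nat.one_le_iff_ne_zero]
    intro h
    rw [Set.ncard_eq_zero hfin] at h
    have : (0 : ℕ) ∈ {γ : ℕ | γ ∈ S ∧ γ < F} := ⟨S.zero_mem, hF0⟩
    rw [h] at this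
    exact this
  have hsum : g i + g j + (e - 2) * g i0 ≤ ∑ i, g i := by
    rw [← Finset.add_sum_erase _ _ (Finset.mem_univ i),
      ← Finset.add_sum_erase (univ.erase i) _ (Finset.mem_erase.mpr ⟨hij.symm, Finset.mem_univ j⟩)]
    have : (e - 2) * g i0 ≤ ∑ x ∈ (univ.erase i).erase j, g x := by
      have hc : ((univ.erase i).erase j : Finset (Fin e)).card = e - 2 := by
        rw [Finset.card_erase_of_mem (Finset.mem_erase.mpr ⟨hij.symm, Finset.mem_univ j⟩),
          Finset.card_erase_of_mem (Finset.mem_univ i)]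
        simp; omega
      rw [← hc, ← smul_eq_mul]
      exact Finset.card_nsmul_le_sum _ _ _ (fun x _ => hi0 x (Finset.mem_univ x))
    omega
  have he2 : 2 ≤ e := by
    have h1 := i.isLt
    have h2 := j.isLt
    have h3 : (i : ℕ) ≠ j := fun h => hij (Fin.ext h)
    omega
  obtain ⟨e', rfl⟩ : ∃ e', e = e' + 2 := ⟨e - 2, by omega⟩
  obtain ⟨m', hm'⟩ : ∃ m', g i0 = m' + 1 := ⟨g i0 - 1, by have := hg0 i0; omega⟩
  obtain ⟨η', hη'⟩ : ∃ η', Set.ncard {γ : ℕ | γ ∈ S ∧ γ < F} = η' + 1 :=
    ⟨Set.ncard {γ : ℕ | γ ∈ S ∧ γ < F} - 1, by omega⟩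
  rw [hη', hm'] at hwilf
  rw [hm'] at hsum
  rw [hη']
  simp only [Nat.add_sub_cancel] at hwilf hsum ⊢
  nlinarith [Nat.zero_le (e' * m')]

end Pool.Agent.Helper75.NumSgp
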