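import Mathlib

set_option autoImplicit false

namespace Pool.Agent.Helper75.Sep

open Finset

/-- Greedy construction of an empty rectangle. -/
theorem rectangle {α : Type*} [DecidableEq α] (P : α → α → Prop)
    [∀ a b, Decidable (P a b)] (R S : Finset α) (D : ℕ)
    (hD : ∀ z ∈ S, (R.filter (fun y => P y z)).card ≤ D)
    (ρ : ℝ) (hρ : 0 < ρ) (k : ℕ) (hk : ρ + k ≤ R.card) (hDρ : (D : ℝ) ≤ ρ) :
    ∀ j ≤ k, ∃ R' ⊆ R, ∃ S' ⊆ S, R'.card = j ∧ (∀ y ∈ R', ∀ z ∈ S', ¬ P y z) ∧
      (S.card : ℝ) * (1 - D / ρ) ^ j ≤ S'.card := by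
  intro j
  induction j with
  | zero =>
    intro _
    exact ⟨∅, Finset.empty_subset _, S, Finset.Subset.refl _, rfl, by simp, by simp⟩
  | succ j ih =>
    intro hj
    obtain ⟨R', hR', S', hS', hcard, hemp, hsize⟩ := ih (by omega)
    -- double counting
    have hdc : ∑ y ∈ R \ R', (S'.filter (fun z => P y z)).card
        = ∑ z ∈ S', ((R \ R').filter (fun y => P y z)).card :=
      Finset.sum_card_bipartiteAbove_eq_sum_card_bipartiteBelow (fun y z => P y z)
    have hle : ∑ z ∈ S', ((R \ R').filter (fun y => P y z)).card ≤ ∑ z ∈ S', D := by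
      refine Finset.sum_le_sum (fun z hz => ?_)
      refine le_trans (Finset.card_le_card ?_) (hD z (hS' hz))
      exact Finset.filter_subset_filter _ Finset.sdiff_subset
    have hRcard : (R \ R').card = R.card - j := by
      rw [Finset.card_sdiff_of_subset hR', hcard]
    have hjk : (j : ℝ) + 1 ≤ k := by exact_mod_cast hj
    have hRge : ρ ≤ ((R \ R').card : ℝ) := by
      rw [hRcard, Nat.cast_sub (by rw [← hcard]; exact Finset.card_le_card hR')]
      linarith
    have hne : (R \ R').Nonempty := by
      rw [← Finset.card_pos]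
      have : (0 : ℝ) < ((R \ R').card : ℝ) := lt_of_lt_of_le hρ hRge
      exact_mod_cast this
    obtain ⟨y, hy, hymin⟩ := Finset.exists_min_image (R \ R')
      (fun y => (S'.filter (fun z => P y z)).card) hne
    have hmul : (R \ R').card * (S'.filter (fun z => P y z)).card ≤ S'.card * D := by
      calc (R \ R').card * (S'.filter (fun z => P y z)).card
          = ∑ _y' ∈ R \ R', (S'.filter (fun z => P y z)).card := by
            rw [Finset.sum_const, smul_eq_mul]
        _ ≤ ∑ y' ∈ R \ R', (S'.filter (fun z => P y' z)).card :=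
            Finset.sum_le_sum (fun y' hy' => hymin y' hy')
        _ ≤ ∑ z ∈ S', D := by rw [hdc]; exact hle
        _ = S'.card * D := by rw [Finset.sum_const, smul_eq_mul]
    have hmem := Finset.mem_sdiff.mp hy
    refine ⟨insert y R', ?_, S'.filter (fun z => ¬ P y z), ?_, ?_, ?_, ?_⟩
    · exact Finset.insert_subset hmem.1 hR'
    · exact (Finset.filter_subset _ _).trans hS'
    · rw [Finset.card_insert_of_notMem hmem.2, hcard]
    · intro y' hy' z hz
      rw [Finset.mem_insert] at hy'
      rw [Finset.mem_filter] at hz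
      rcases hy' with rfl | hy'
      · exact hz.2
      · exact hemp y' hy' z hz.1
    · have hsplit : ((S'.filter (fun z => P y z)).card : ℝ)
          + ((S'.filter (fun z => ¬ P y z)).card : ℝ) = S'.card := by
        exact_mod_cast Finset.card_filter_add_card_filter_not (s := S') (fun z => P y z)
      have hb : ((S'.filter (fun z => P y z)).card : ℝ) ≤ S'.card * (D / ρ) := by
        have h1 : ρ * ((S'.filter (fun z => P y z)).card : ℝ) ≤ S'.card * D := by
          calc ρ * ((S'.filter (fun z => P y z)).card : ℝ)
              ≤ ((R \ R').card : ℝ) * ((S'.filter (fun z => P y z)).card : ℝ) :=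
                mul_le_mul_of_nonneg_right hRge (Nat.cast_nonneg _)
            _ ≤ S'.card * D := by exact_mod_cast hmul
        rw [← mul_div_assoc, le_div_iff₀ hρ]
        linarith
      have h1 : 0 ≤ 1 - (D : ℝ) / ρ := by
        rw [sub_nonneg, div_le_one hρ]; exact hDρ
      calc (S.card : ℝ) * (1 - D / ρ) ^ (j + 1)
          = ((S.card : ℝ) * (1 - D / ρ) ^ j) * (1 - D / ρ) := by ring
        _ ≤ S'.card * (1 - D / ρ) := mul_le_mul_of_nonneg_right hsize h1
        _ ≤ ((S'.filter (fun z => ¬ P y z)).card : ℝ) := by
            rw [mul_sub, mul_one]; linarith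

/-- The involution `0 ↔ 1` of the three classes. -/
def tau : Equiv.Perm (Fin 3) := Equiv.swap 0 1

/-- The permutations exchanging the classes `0` and `1`, and preserving the class `2`. -/
def fam {α : Type*} [Fintype α] [DecidableEq α] (cls : α → Fin 3) : Finset (Equiv.Perm α) :=
  univ.filter (fun g => ∀ x, cls (g x) = tau (cls x))

theorem mem_fam {α : Type*} [Fintype α] [DecidableEq α] (cls : α → Fin 3) (g : Equiv.Perm α) :
    g ∈ fam cls ↔ ∀ x, cls (g x) = tau (cls x) := by
  simp [fam]

theorem fam_nonempty {α : Type*} [Fintype α] [DecidableEq α] (cls : α → Fin 3)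
    (h01 : (univ.filter (fun x => cls x = 0)).card = (univ.filter (fun x => cls x = 1)).card) :
    (fam cls).Nonempty := by
  classical
  have hcard : ∀ c : Fin 3, Fintype.card {a // tau (cls a) = c} = Fintype.card {b // cls b = c} := by
    intro c
    rw [Fintype.card_subtype, Fintype.card_subtype]
    have h1 : (univ.filter (fun a => tau (cls a) = c)) = univ.filter (fun a => cls a = tau c) := by
      ext a
      simp only [mem_filter, mem_univ, true_and]
      constructor
      · rintro rfl; simp [tau]
      · intro h; rw [h]; simp [tau]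
    rw [h1]
    fin_cases c
    · simpa [tau] using h01.symm
    · simpa [tau] using h01
    · have : tau 2 = 2 := by decide
      simp [this]
  let e := Equiv.ofFiberEquiv (f := fun a => tau (cls a)) (g := cls)
    (fun c => Fintype.equivOfCardEq (hcard c))
  refine ⟨e, ?_⟩
  rw [mem_fam]
  intro x
  exact Equiv.ofFiberEquiv_map _ x

theorem fam_count_zero {α : Type*} [Fintype α] [DecidableEq α] (cls : α → Fin 3) (x x' : α)
    (h : cls x' ≠ tau (cls x)) : ((fam cls).filter (fun g => g x = x')).card = 0 := by
  rw [Finset.card_eq_zero, Finset.filter_eq_empty_iff]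
  intro g hg hgx
  rw [mem_fam] at hg
  exact h (by rw [← hgx, hg x])

theorem fam_count {α : Type*} [Fintype α] [DecidableEq α] (cls : α → Fin 3) (x x' : α)
    (h : cls x' = tau (cls x)) :
    ((fam cls).filter (fun g => g x = x')).card * (univ.filter (fun y => cls y = cls x')).card
      = (fam cls).card := by
  classical
  have heq : ∀ x'' ∈ univ.filter (fun y => cls y = cls x'),
      ((fam cls).filter (fun g => g x = x'')).card = ((fam cls).filter (fun g => g x = x')).card := by
    intro x'' hx''
    rw [mem_filter] at hx''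
    have hcls : ∀ y, cls (Equiv.swap x'' x' y) = cls y := by
      intro y
      by_cases h1 : y = x''
      · subst h1; rw [Equiv.swap_apply_left]; exact hx''.2.symm
      · by_cases h2 : y = x'
        · subst h2; rw [Equiv.swap_apply_right]; exact hx''.2
        · rw [Equiv.swap_apply_of_ne_of_ne h1 h2]
    refine Finset.card_bij' (fun g _ => Equiv.swap x'' x' * g) (fun g _ => Equiv.swap x'' x' * g)
      ?_ ?_ ?_ ?_
    · intro g hg
      rw [mem_filter, mem_fam] at hg ⊢
      refine ⟨fun y => ?_, ?_⟩
      · rw [Equiv.Perm.mul_apply, hcls, hg.1]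
      · rw [Equiv.Perm.mul_apply, hg.2, Equiv.swap_apply_left]
    · intro g hg
      rw [mem_filter, mem_fam] at hg ⊢
      refine ⟨fun y => ?_, ?_⟩
      · rw [Equiv.Perm.mul_apply, hcls, hg.1]
      · rw [Equiv.Perm.mul_apply, hg.2, Equiv.swap_apply_right]
    · intro g _
      rw [← mul_assoc, Equiv.swap_mul_self, one_mul]
    · intro g _
      rw [← mul_assoc, Equiv.swap_mul_self, one_mul]
  have hsum : ∑ x'' ∈ univ.filter (fun y => cls y = cls x'),
      ((fam cls).filter (fun g => g x = x'')).card = (fam cls).card := by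
    rw [← Finset.card_eq_sum_card_fiberwise]
    intro g hg
    rw [Finset.mem_coe, mem_fam] at hg
    simp only [coe_filter, mem_univ, true_and, Set.mem_ofPred_eq]
    rw [hg x, h]
  rw [← hsum, Finset.sum_congr rfl heq, Finset.sum_const, smul_eq_mul, mul_comm]

/-- Upper bound for the number of members of the family sending `x` to `x'`. -/
theorem fam_count_le {α : Type*} [Fintype α] [DecidableEq α] (cls : α → Fin 3)
    (k l : ℕ) (hk : 0 < k) (hl : 0 < l)
    (h0 : (univ.filter (fun x => cls x = 0)).card = k)
    (h1 : (univ.filter (fun x => cls x = 1)).card = k)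
    (h2 : l ≤ (univ.filter (fun x => cls x = 2)).card) (x x' : α) :
    (((fam cls).filter (fun g => g x = x')).card : ℝ) ≤ ((fam cls).card : ℝ) *
      (1 / l + ((if cls x = 1 then 1 else 0) + (if cls x' = 1 then 1 else 0)) / k) := by
  classical
  have hk' : (0 : ℝ) < k := by exact_mod_cast hk
  have hl' : (0 : ℝ) < l := by exact_mod_cast hl
  have hfam : (0 : ℝ) ≤ ((fam cls).card : ℝ) := Nat.cast_nonneg _
  by_cases h : cls x' = tau (cls x)
  · have hc := fam_count cls x x' h
    have hc' : (((fam cls).filter (fun g => g x = x')).card : ℝ)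
        * ((univ.filter (fun y => cls y = cls x')).card : ℝ) = ((fam cls).card : ℝ) := by
      exact_mod_cast hc
    have hnn : (0 : ℝ) ≤ (((fam cls).filter (fun g => g x = x')).card : ℝ) := Nat.cast_nonneg _
    have key : ∀ (s t : ℝ), 0 < s → s ≤ ((univ.filter (fun y => cls y = cls x')).card : ℝ) →
        1 / s ≤ t →
        (((fam cls).filter (fun g => g x = x')).card : ℝ) ≤ ((fam cls).card : ℝ) * t := by
      intro s t hs hs' ht
      have h3 : (((fam cls).filter (fun g => g x = x')).card : ℝ) * s ≤ ((fam cls).card : ℝ) := by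
        rw [← hc']
        exact mul_le_mul_of_nonneg_left hs' hnn
      calc (((fam cls).filter (fun g => g x = x')).card : ℝ)
          ≤ ((fam cls).card : ℝ) / s := by rw [le_div_iff₀ hs]; exact h3
        _ = ((fam cls).card : ℝ) * (1 / s) := by ring
        _ ≤ ((fam cls).card : ℝ) * t := mul_le_mul_of_nonneg_left ht hfam
    have hcases : cls x = 0 ∨ cls x = 1 ∨ cls x = 2 := by
      have : ∀ c : Fin 3, c = 0 ∨ c = 1 ∨ c = 2 := by decide
      exact this _
    rcases hcases with hx | hx | hx
    · have hx' : cls x' = 1 := by rw [h, hx]; decide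
      refine key k _ hk' (by rw [hx', h1]) ?_
      rw [hx, hx']
      have : (0 : ℝ) ≤ 1 / l := by positivity
      simp
    · have hx' : cls x' = 0 := by rw [h, hx]; decide
      refine key k _ hk' (by rw [hx', h0]) ?_
      rw [hx, hx']
      have : (0 : ℝ) ≤ 1 / l := by positivity
      simp
    · have hx' : cls x' = 2 := by rw [h, hx]; decide
      refine key l _ hl' (by rw [hx']; exact_mod_cast h2) ?_
      rw [hx, hx']
      simp
  · rw [fam_count_zero cls x x' h]
    push_cast
    positivity

end Pool.Agent.Helper75.Sep
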