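import Mathlib
import Pool.Agent.Helper75.SepLemmas

set_option autoImplicit false

namespace Pool.Agent.Helper75.Sep

open Finset

/-- The conflicts between `A` and its image under `(g₂, g₃)` on the last two coordinates. -/
def conflicts {α : Type*} [DecidableEq α] (A : Finset (α × α × α)) (g₂ g₃ : Equiv.Perm α) :
    Finset ((α × α × α) × (α × α × α)) :=
  (A ×ˢ A).filter (fun p => g₂ p.1.2.1 = p.2.2.1 ∧ g₃ p.1.2.2 = p.2.2.2)

theorem sum_conflicts {α : Type*} [DecidableEq α] (A : Finset (α × α × α))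
    (F₂ F₃ : Finset (Equiv.Perm α)) :
    ∑ g ∈ F₂ ×ˢ F₃, ((conflicts A g.1 g.2).card : ℝ)
      = ∑ p ∈ A ×ˢ A, ((F₂.filter (fun g => g p.1.2.1 = p.2.2.1)).card : ℝ)
          * ((F₃.filter (fun g => g p.1.2.2 = p.2.2.2)).card : ℝ) := by
  have h1 : ∀ g : Equiv.Perm α × Equiv.Perm α, ((conflicts A g.1 g.2).card : ℝ)
      = ∑ p ∈ A ×ˢ A, if (g.1 p.1.2.1 = p.2.2.1 ∧ g.2 p.1.2.2 = p.2.2.2) then (1 : ℝ) else 0 := by
    intro g
    rw [conflicts, Finset.card_filter]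
    push_cast
    rfl
  simp_rw [h1]
  rw [Finset.sum_comm]
  refine Finset.sum_congr rfl (fun p _ => ?_)
  rw [← Nat.cast_mul, ← Finset.card_product, ← Finset.filter_product, Finset.card_filter]
  push_cast
  rfl

theorem sum_expand {ι : Type*} (A : Finset ι) (u v : ι → ℝ) (x κ : ℝ)
    (huv : ∀ a ∈ A, u a * v a = 0) :
    ∑ p ∈ A ×ˢ A, (x + (u p.1 + u p.2) * κ) * (x + (v p.1 + v p.2) * κ)
      = (A.card : ℝ) ^ 2 * x ^ 2
        + 2 * x * κ * (A.card : ℝ) * ((∑ a ∈ A, u a) + (∑ a ∈ A, v a))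
        + 2 * κ ^ 2 * ((∑ a ∈ A, u a) * (∑ a ∈ A, v a)) := by
  rw [Finset.sum_product]
  have h1 : ∀ a ∈ A, ∀ b ∈ A, (x + (u a + u b) * κ) * (x + (v a + v b) * κ)
      = x ^ 2 + (x * κ) * u a + (x * κ) * u b + (x * κ) * v a + (x * κ) * v b
        + (κ ^ 2 * u a) * v b + (κ ^ 2 * v a) * u b := by
    intro a ha b hb
    have h2 := huv a ha
    have h3 := huv b hb
    linear_combination κ ^ 2 * h2 + κ ^ 2 * h3
  rw [Finset.sum_congr rfl (fun a ha => Finset.sum_congr rfl (fun b hb => h1 a ha b hb))]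
  simp only [Finset.sum_add_distrib, ← Finset.mul_sum, ← Finset.sum_mul, Finset.sum_const,
    nsmul_eq_mul]
  ring

/-- The averaging step. -/
theorem exists_pair {α : Type*} [Fintype α] [DecidableEq α] (A : Finset (α × α × α))
    (clsY clsW : α → Fin 3) (k l D N : ℕ) (hk : 0 < k) (hl : 0 < l)
    (hY0 : (univ.filter (fun x => clsY x = 0)).card = k)
    (hY1 : (univ.filter (fun x => clsY x = 1)).card = k)
    (hY2 : l ≤ (univ.filter (fun x => clsY x = 2)).card)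
    (hW0 : (univ.filter (fun x => clsW x = 0)).card = k)
    (hW1 : (univ.filter (fun x => clsW x = 1)).card = k)
    (hW2 : l ≤ (univ.filter (fun x => clsW x = 2)).card)
    (hN : A.card ≤ N)
    (hAY : (A.filter (fun a => clsY a.2.1 = 1)).card ≤ k * D)
    (hAW : (A.filter (fun a => clsW a.2.2 = 1)).card ≤ k * D)
    (hemp : ∀ a ∈ A, ¬ (clsY a.2.1 = 1 ∧ clsW a.2.2 = 1)) :
    ∃ g₂ ∈ fam clsY, ∃ g₃ ∈ fam clsW,
      ((conflicts A g₂ g₃).card : ℝ) ≤ (N : ℝ) ^ 2 / l ^ 2 + 4 * N * D / l + 2 * (D : ℝ) ^ 2 := by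
  classical
  have hk' : (0 : ℝ) < k := by exact_mod_cast hk
  have hl' : (0 : ℝ) < l := by exact_mod_cast hl
  set B : ℝ := (N : ℝ) ^ 2 / l ^ 2 + 4 * N * D / l + 2 * (D : ℝ) ^ 2 with hB
  have hne : (fam clsY ×ˢ fam clsW).Nonempty :=
    Finset.Nonempty.product (fam_nonempty clsY (hY0.trans hY1.symm))
      (fam_nonempty clsW (hW0.trans hW1.symm))
  set u : α × α × α → ℝ := fun a => if clsY a.2.1 = 1 then 1 else 0 with hu
  set v : α × α × α → ℝ := fun a => if clsW a.2.2 = 1 then 1 else 0 with hv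
  have hU : ∑ a ∈ A, u a ≤ k * D := by
    have : ∑ a ∈ A, u a = ((A.filter (fun a => clsY a.2.1 = 1)).card : ℝ) := by
      rw [Finset.card_filter]; push_cast; rfl
    rw [this]; exact_mod_cast hAY
  have hV : ∑ a ∈ A, v a ≤ k * D := by
    have : ∑ a ∈ A, v a = ((A.filter (fun a => clsW a.2.2 = 1)).card : ℝ) := by
      rw [Finset.card_filter]; push_cast; rfl
    rw [this]; exact_mod_cast hAW
  have hU0 : 0 ≤ ∑ a ∈ A, u a := Finset.sum_nonneg (fun a _ => by simp only [hu]; positivity)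
  have hV0 : 0 ≤ ∑ a ∈ A, v a := Finset.sum_nonneg (fun a _ => by simp only [hv]; positivity)
  have huv : ∀ a ∈ A, u a * v a = 0 := by
    intro a ha
    simp only [hu, hv]
    by_cases h1 : clsY a.2.1 = 1
    · have h2 : ¬ clsW a.2.2 = 1 := fun h2 => hemp a ha ⟨h1, h2⟩
      simp [h2]
    · simp [h1]
  have hNr : (A.card : ℝ) ≤ N := by exact_mod_cast hN
  have hA0 : (0 : ℝ) ≤ (A.card : ℝ) := Nat.cast_nonneg _
  have hsum : ∑ g ∈ fam clsY ×ˢ fam clsW, ((conflicts A g.1 g.2).card : ℝ)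
      ≤ ∑ _g ∈ fam clsY ×ˢ fam clsW, B := by
    rw [sum_conflicts, Finset.sum_const, Finset.card_product, nsmul_eq_mul, Nat.cast_mul]
    calc ∑ p ∈ A ×ˢ A, (((fam clsY).filter (fun g => g p.1.2.1 = p.2.2.1)).card : ℝ)
          * (((fam clsW).filter (fun g => g p.1.2.2 = p.2.2.2)).card : ℝ)
        ≤ ∑ p ∈ A ×ˢ A, (((fam clsY).card : ℝ) * (1 / l + (u p.1 + u p.2) * (1 / k)))
            * (((fam clsW).card : ℝ) * (1 / l + (v p.1 + v p.2) * (1 / k))) := by
          refine Finset.sum_le_sum (fun p _ => ?_)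
          have h1 := fam_count_le clsY k l hk hl hY0 hY1 hY2 p.1.2.1 p.2.2.1
          have h2 := fam_count_le clsW k l hk hl hW0 hW1 hW2 p.1.2.2 p.2.2.2
          rw [div_eq_mul_one_div (_ + _) (k : ℝ)] at h1 h2
          refine mul_le_mul h1 h2 (Nat.cast_nonneg _) ?_
          simp only [hu]
          positivity
      _ = ((fam clsY).card : ℝ) * ((fam clsW).card : ℝ)
            * ∑ p ∈ A ×ˢ A, (1 / l + (u p.1 + u p.2) * (1 / k)) * (1 / l + (v p.1 + v p.2) * (1 / k)) := by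
          rw [Finset.mul_sum]
          exact Finset.sum_congr rfl (fun p _ => by ring)
      _ ≤ ((fam clsY).card : ℝ) * ((fam clsW).card : ℝ) * B := by
          refine mul_le_mul_of_nonneg_left ?_ (by positivity)
          rw [sum_expand A u v (1 / l) (1 / k) huv, hB]
          have e1 : (A.card : ℝ) ^ 2 * (1 / (l : ℝ)) ^ 2 ≤ (N : ℝ) ^ 2 / l ^ 2 := by
            rw [one_div, inv_pow, ← div_eq_mul_inv]
            gcongr
          have e2 : 2 * (1 / (l : ℝ)) * (1 / k) * (A.card : ℝ)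
              * ((∑ a ∈ A, u a) + (∑ a ∈ A, v a)) ≤ 4 * N * D / l := by
            calc 2 * (1 / (l : ℝ)) * (1 / k) * (A.card : ℝ) * ((∑ a ∈ A, u a) + (∑ a ∈ A, v a))
                ≤ 2 * (1 / (l : ℝ)) * (1 / k) * (N : ℝ) * (k * D + k * D) := by
                  gcongr
              _ = 4 * N * D / l := by field_simp; ring
          have e3 : 2 * (1 / (k : ℝ)) ^ 2 * ((∑ a ∈ A, u a) * (∑ a ∈ A, v a)) ≤ 2 * (D : ℝ) ^ 2 := by
            calc 2 * (1 / (k : ℝ)) ^ 2 * ((∑ a ∈ A, u a) * (∑ a ∈ A, v a))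
                ≤ 2 * (1 / (k : ℝ)) ^ 2 * ((k * D) * (k * D)) := by gcongr
              _ = 2 * (D : ℝ) ^ 2 := by field_simp
          linarith
  obtain ⟨g, hg, hgle⟩ := Finset.exists_le_of_sum_le hne hsum
  rw [Finset.mem_product] at hg
  exact ⟨g.1, hg.1, g.2, hg.2, hgle⟩

end Pool.Agent.Helper75.Sep
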