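import Mathlib
import Pool.Agent.Helper75.SepAverage

set_option autoImplicit false

namespace Pool.Agent.Helper75.Sep

open Finset

/-- A perfect matching avoiding few bad pairs, when there is a set of universally good elements. -/
theorem hall_step {α : Type*} [Fintype α] [DecidableEq α] (bad : α → α → Prop)
    [∀ i j, Decidable (bad i j)] (I₀ : Finset α)
    (h1 : ∀ i ∈ I₀, ∀ j, ¬ bad i j) (h2 : ∀ j ∈ I₀, ∀ i, ¬ bad i j)
    (hbig : (univ.filter (fun p : α × α => bad p.1 p.2)).card
      < (I₀.card + 1) * (Fintype.card α - I₀.card)) :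
    ∃ g : Equiv.Perm α, ∀ i, ¬ bad i (g i) := by
  classical
  have hall : ∀ s : Finset α,
      s.card ≤ (s.biUnion (fun i => univ.filter (fun j => ¬ bad i j))).card := by
    intro s
    by_contra hlt
    push Not at hlt
    set Ns := s.biUnion (fun i => univ.filter (fun j => ¬ bad i j)) with hNs
    have hsne : s.Nonempty := by
      rw [← Finset.card_pos]; omega
    -- `s` is disjoint from `I₀`
    have hdisj : Disjoint s I₀ := by
      rw [Finset.disjoint_left]
      intro i hi hi0
      have hfull : Ns = univ := by
        ext j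
        simp only [hNs, mem_biUnion, mem_filter, mem_univ, true_and, iff_true]
        exact ⟨i, hi, h1 i hi0 j⟩
      rw [hfull, Finset.card_univ] at hlt
      exact absurd (Finset.card_le_univ s) (by omega)
    have hsle : s.card + I₀.card ≤ Fintype.card α := by
      rw [← Finset.card_union_of_disjoint hdisj]
      exact Finset.card_le_univ _
    have hI0 : I₀ ⊆ Ns := by
      intro j hj
      obtain ⟨i, hi⟩ := hsne
      simp only [hNs, mem_biUnion, mem_filter, mem_univ, true_and]
      exact ⟨i, hi, h2 j hj i⟩
    have hI0' : I₀.card ≤ Ns.card := Finset.card_le_card hI0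
    -- all pairs of `s ×ˢ Nsᶜ` are bad
    have hbad : s ×ˢ Nsᶜ ⊆ univ.filter (fun p : α × α => bad p.1 p.2) := by
      rintro ⟨i, j⟩ hp
      rw [Finset.mem_product, Finset.mem_compl] at hp
      simp only [mem_filter, mem_univ, true_and]
      by_contra hcon
      apply hp.2
      simp only [hNs, mem_biUnion, mem_filter, mem_univ, true_and]
      exact ⟨i, hp.1, hcon⟩
    have hcard := Finset.card_le_card hbad
    rw [Finset.card_product, Finset.card_compl] at hcard
    -- arithmetic
    have hfin : (I₀.card + 1) * (Fintype.card α - I₀.card)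
        ≤ s.card * (Fintype.card α - Ns.card) := by
      have hge : s.card * (Fintype.card α + 1 - s.card) ≤ s.card * (Fintype.card α - Ns.card) :=
        Nat.mul_le_mul_left _ (by omega)
      refine le_trans ?_ hge
      obtain ⟨a, ha⟩ : ∃ a, s.card = I₀.card + 1 + a := ⟨s.card - I₀.card - 1, by omega⟩
      obtain ⟨b, hb⟩ : ∃ b, Fintype.card α = s.card + I₀.card + b :=
        ⟨Fintype.card α - s.card - I₀.card, by omega⟩
      have e1 : Fintype.card α - I₀.card = s.card + b := by omega
      have e2 : Fintype.card α + 1 - s.card = I₀.card + 1 + b := by omega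
      rw [e1, e2, ha]
      nlinarith [Nat.zero_le (a * b)]
    omega
  obtain ⟨f, hf, hf'⟩ := (Finset.all_card_le_biUnion_card_iff_exists_injective
    (fun i => univ.filter (fun j => ¬ bad i j))).mp hall
  refine ⟨Equiv.ofBijective f (Finite.injective_iff_bijective.mp hf), fun i => ?_⟩
  have := hf' i
  rw [mem_filter] at this
  exact this.2

/-- Few values have a large fibre. -/
theorem heavy_card {α β : Type*} [Fintype β] [DecidableEq β] (A : Finset α) (f : α → β)
    (D N : ℕ) (hN : A.card ≤ N) :
    (univ.filter (fun y => D < (A.filter (fun a => f a = y)).card)).card * D ≤ N := by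
  classical
  refine le_trans ?_ hN
  calc (univ.filter (fun y => D < (A.filter (fun a => f a = y)).card)).card * D
      = ∑ _y ∈ univ.filter (fun y => D < (A.filter (fun a => f a = y)).card), D := by
        rw [Finset.sum_const, smul_eq_mul]
    _ ≤ ∑ y ∈ univ.filter (fun y => D < (A.filter (fun a => f a = y)).card),
          (A.filter (fun a => f a = y)).card :=
        Finset.sum_le_sum (fun y hy => (mem_filter.mp hy).2.le)
    _ ≤ ∑ y : β, (A.filter (fun a => f a = y)).card :=
        Finset.sum_le_sum_of_subset (Finset.filter_subset _ _)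
    _ = A.card := (Finset.card_eq_sum_card_fiberwise (fun a _ => Finset.mem_univ (f a))).symm

theorem light_card {α β : Type*} [Fintype β] [DecidableEq β] (A : Finset α) (f : α → β)
    (C q : ℕ) (hC : 0 < C) (hq : 0 < q) (hβ : Fintype.card β = q ^ 2) (hN : A.card ≤ C * q ^ 3) :
    3 * q ^ 2 ≤ 4 * (univ.filter (fun y => (A.filter (fun a => f a = y)).card ≤ 4 * C * q)).card := by
  classical
  have h1 := heavy_card A f (4 * C * q) (C * q ^ 3) hN
  have h2 : (univ.filter (fun y => (A.filter (fun a => f a = y)).card ≤ 4 * C * q)).card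
      + (univ.filter (fun y => 4 * C * q < (A.filter (fun a => f a = y)).card)).card = q ^ 2 := by
    rw [← hβ, ← Finset.card_univ (α := β)]
    rw [← Finset.card_filter_add_card_filter_not (s := (univ : Finset β))
      (fun y => (A.filter (fun a => f a = y)).card ≤ 4 * C * q)]
    simp only [not_le]
  have h3 : 4 * (univ.filter (fun y => 4 * C * q < (A.filter (fun a => f a = y)).card)).card
      ≤ q ^ 2 := by
    have h4 : (C * q) * (4 * (univ.filter
        (fun y => 4 * C * q < (A.filter (fun a => f a = y)).card)).card) ≤ (C * q) * q ^ 2 := by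
      calc (C * q) * (4 * (univ.filter
            (fun y => 4 * C * q < (A.filter (fun a => f a = y)).card)).card)
          = (univ.filter (fun y => 4 * C * q < (A.filter (fun a => f a = y)).card)).card
            * (4 * C * q) := by ring
        _ ≤ C * q ^ 3 := h1
        _ = (C * q) * q ^ 2 := by ring
    exact Nat.le_of_mul_le_mul_left h4 (Nat.mul_pos hC hq)
  omega

/-- The elements of `A` over a set `Y` of light values. -/
theorem card_over {α β : Type*} [DecidableEq β] (A : Finset α) (f : α → β)
    (Y : Finset β) (D : ℕ) (hY : ∀ y ∈ Y, (A.filter (fun a => f a = y)).card ≤ D) :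
    (A.filter (fun a => f a ∈ Y)).card ≤ Y.card * D := by
  classical
  calc (A.filter (fun a => f a ∈ Y)).card
      = ∑ y ∈ Y, ((A.filter (fun a => f a ∈ Y)).filter (fun a => f a = y)).card :=
        Finset.card_eq_sum_card_fiberwise (fun a ha => (mem_filter.mp ha).2)
    _ ≤ ∑ _y ∈ Y, D := by
        refine Finset.sum_le_sum (fun y hy => le_trans (Finset.card_le_card ?_) (hY y hy))
        exact Finset.filter_subset_filter _ (Finset.filter_subset _ _)
    _ = Y.card * D := by rw [Finset.sum_const, smul_eq_mul]

theorem exp_le (x : ℝ) (h0 : 0 ≤ x) (h1 : x ≤ 1 / 2) : Real.exp (-2 * x) ≤ 1 - x := by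
  have h2 : 1 + 2 * x ≤ Real.exp (2 * x) := by
    have := Real.add_one_le_exp (2 * x)
    linarith
  have h3 : Real.exp (-2 * x) = (Real.exp (2 * x))⁻¹ := by
    rw [← Real.exp_neg]; congr 1; ring
  rw [h3, inv_le_comm₀ (Real.exp_pos _) (by linarith)]
  refine le_trans ?_ h2
  rw [inv_le_comm₀ (by linarith) (by linarith)]
  rw [inv_eq_one_div, div_le_iff₀ (by linarith)]
  nlinarith

theorem pow_lower (x : ℝ) (h0 : 0 ≤ x) (h1 : x ≤ 1 / 2) (k : ℕ) :
    Real.exp (-2 * (x * k)) ≤ (1 - x) ^ k := by
  have h2 : Real.exp (-2 * (x * k)) = (Real.exp (-2 * x)) ^ k := by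
    rw [← Real.exp_nat_mul]; congr 1; ring
  rw [h2]
  exact pow_le_pow_left₀ (Real.exp_pos _).le (exp_le x h0 h1) k

end Pool.Agent.Helper75.Sep
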