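import Mathlib
import Pool.Agent.Helper75.SepMain

set_option autoImplicit false

namespace Pool.Agent.Helper75.Sep

open Finset

/-- The main combinatorial theorem with explicit size conditions. -/
theorem main_explicit (C q L : ℕ) (hC : 1 ≤ C) (hL : L = 68 * C ^ 2)
    (hq1 : 16 * L * C ≤ q) (hq2 : 32 * C ≤ q) (hq3 : L ^ 2 + L < q ^ 2)
    (hq4 : 8 * (L : ℝ) * C * Real.exp (128 * L * C ^ 2) ≤ q)
    {α : Type*} [Fintype α] [DecidableEq α] (hα : Fintype.card α = q ^ 2)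
    (A : Finset (α × α × α)) (hA : A.card ≤ C * q ^ 3) :
    ∃ g₁ g₂ g₃ : Equiv.Perm α, ∀ a ∈ A, (g₁ a.1, g₂ a.2.1, g₃ a.2.2) ∉ A := by
  classical
  have hCpos : 0 < C := hC
  have hqpos : 0 < q := by omega
  have hLpos : 0 < L := by rw [hL]; positivity
  set D := 4 * C * q with hD
  have hDpos : 0 < D := by positivity
  set k := L * D with hk
  have hkpos : 0 < k := by positivity
  have hkq : 4 * k ≤ q ^ 2 := by
    calc 4 * k = (16 * L * C) * q := by rw [hk, hD]; ring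
      _ ≤ q * q := Nat.mul_le_mul_right _ hq1
      _ = q ^ 2 := by ring
  -- light sets
  have hlight1 := light_card A (fun a => a.1) C q hCpos hqpos hα hA
  have hlight2 := light_card A (fun a => a.2.1) C q hCpos hqpos hα hA
  have hlight3 := light_card A (fun a => a.2.2) C q hCpos hqpos hα hA
  have hLD : L ≤ k := Nat.le_mul_of_pos_right _ hDpos
  -- the light slices
  obtain ⟨I₀, hI₀, hI₀card⟩ := Finset.exists_subset_card_eq
    (s := univ.filter (fun y => (A.filter (fun a => a.1 = y)).card ≤ 4 * C * q)) (n := L)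
    (by omega)
  have hI₀light : ∀ y ∈ I₀, (A.filter (fun a => a.1 = y)).card ≤ D := fun y hy =>
    (mem_filter.mp (hI₀ hy)).2
  have hAI : (A.filter (fun a => a.1 ∈ I₀)).card ≤ k := by
    have := card_over A (fun a => a.1) I₀ D hI₀light
    rwa [hI₀card] at this
  -- rows and columns of the light slices
  have hYim : ((A.filter (fun a => a.1 ∈ I₀)).image (fun a => a.2.1)).card ≤ k :=
    le_trans Finset.card_image_le hAI
  have hWim : ((A.filter (fun a => a.1 ∈ I₀)).image (fun a => a.2.2)).card ≤ k :=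
    le_trans Finset.card_image_le hAI
  obtain ⟨Y, hY, hYcard⟩ := Finset.exists_superset_card_eq hYim (by rw [hα]; omega)
  obtain ⟨W, hW, hWcard⟩ := Finset.exists_superset_card_eq hWim (by rw [hα]; omega)
  -- the empty rectangle
  set P : α → α → Prop := fun y z => ∃ i, (i, y, z) ∈ A with hP
  set R0 := (univ.filter (fun y => (A.filter (fun a => a.2.1 = y)).card ≤ 4 * C * q)) \ Y with hR0
  set S0 := (univ.filter (fun z => (A.filter (fun a => a.2.2 = z)).card ≤ 4 * C * q)) \ W with hS0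
  have hR0card : 3 * q ^ 2 ≤ 4 * R0.card + 4 * k := by
    have : (univ.filter (fun y => (A.filter (fun a => a.2.1 = y)).card ≤ 4 * C * q)).card
        - Y.card ≤ R0.card := Finset.le_card_sdiff Y
      (univ.filter (fun y => (A.filter (fun a => a.2.1 = y)).card ≤ 4 * C * q))
    omega
  have hS0card : 3 * q ^ 2 ≤ 4 * S0.card + 4 * k := by
    have : (univ.filter (fun y => (A.filter (fun a => a.2.2 = y)).card ≤ 4 * C * q)).card
        - W.card ≤ S0.card := Finset.le_card_sdiff W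
      (univ.filter (fun z => (A.filter (fun a => a.2.2 = z)).card ≤ 4 * C * q))
    omega
  have hqr : (0 : ℝ) < q := by exact_mod_cast hqpos
  have hCr : (1 : ℝ) ≤ C := by exact_mod_cast hC
  have hq2r : 32 * (C : ℝ) ≤ q := by exact_mod_cast hq2
  set ρ : ℝ := (q : ℝ) ^ 2 / 4 with hρ
  have hρpos : 0 < ρ := by positivity
  have hDρ : (D : ℝ) / ρ = 16 * C / q := by
    rw [hD, hρ]; push_cast; field_simp; ring
  have hx : (D : ℝ) / ρ ≤ 1 / 2 := by
    rw [hDρ, div_le_iff₀ hqr]; linarith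
  have hkr : 4 * (k : ℝ) ≤ (q : ℝ) ^ 2 := by exact_mod_cast hkq
  have hR0r : 3 * (q : ℝ) ^ 2 ≤ 4 * (R0.card : ℝ) + 4 * k := by exact_mod_cast hR0card
  have hS0r : 3 * (q : ℝ) ^ 2 ≤ 4 * (S0.card : ℝ) + 4 * k := by exact_mod_cast hS0card
  obtain ⟨Ys, hYs, S', hS', hYscard, hempty, hS'card⟩ := rectangle P R0 S0 D (by
      intro z hz
      have hz' := (mem_filter.mp (Finset.mem_sdiff.mp hz).1).2
      refine le_trans ?_ hz'
      refine le_trans (Finset.card_le_card ?_)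
        (Finset.card_image_le (f := fun a : α × α × α => a.2.1)
          (s := A.filter (fun a => a.2.2 = z)))
      intro y hy
      obtain ⟨i, hi⟩ := (mem_filter.mp hy).2
      rw [Finset.mem_image]
      exact ⟨(i, y, z), mem_filter.mpr ⟨hi, rfl⟩, rfl⟩) ρ hρpos k (by rw [hρ]; linarith)
    (by
      have := hx
      rw [div_le_iff₀ hρpos] at this
      linarith) k le_rfl
  have hS'k : k ≤ S'.card := by
    have h1 : Real.exp (-2 * ((D : ℝ) / ρ * k)) ≤ (1 - (D : ℝ) / ρ) ^ k :=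
      pow_lower _ (by positivity) hx k
    have h2 : (D : ℝ) / ρ * k = 64 * L * C ^ 2 := by
      rw [hDρ, hk, hD]; push_cast; field_simp; ring
    rw [h2] at h1
    have h3 : (q : ℝ) ^ 2 / 2 ≤ S0.card := by linarith
    have h4 : (k : ℝ) ≤ (q : ℝ) ^ 2 / 2 * Real.exp (-2 * (64 * L * C ^ 2)) := by
      have h5 : Real.exp (-2 * (64 * (L : ℝ) * C ^ 2)) = (Real.exp (128 * L * C ^ 2))⁻¹ := by
        rw [← Real.exp_neg]; congr 1; ring
      rw [h5, ← div_eq_mul_inv, le_div_iff₀ (Real.exp_pos _)]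
      have h6 : (k : ℝ) = 4 * L * C * q := by rw [hk, hD]; push_cast; ring
      rw [h6]
      have h7 := mul_le_mul_of_nonneg_right hq4 (show (0 : ℝ) ≤ q / 2 by positivity)
      calc 4 * (L : ℝ) * C * q * Real.exp (128 * L * C ^ 2)
          = 8 * (L : ℝ) * C * Real.exp (128 * L * C ^ 2) * (q / 2) := by ring
        _ ≤ q * (q / 2) := h7
        _ = (q : ℝ) ^ 2 / 2 := by ring
    have h7 : (k : ℝ) ≤ (S'.card : ℝ) := by
      calc (k : ℝ) ≤ (q : ℝ) ^ 2 / 2 * Real.exp (-2 * (64 * L * C ^ 2)) := h4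
        _ ≤ (S0.card : ℝ) * (1 - (D : ℝ) / ρ) ^ k :=
            mul_le_mul h3 h1 (Real.exp_pos _).le (Nat.cast_nonneg _)
        _ ≤ S'.card := hS'card
    exact_mod_cast h7
  obtain ⟨Ws, hWs, hWscard⟩ := Finset.exists_subset_card_eq hS'k
  have hYdisj : Disjoint Ys Y := by
    rw [Finset.disjoint_left]
    intro y hy
    exact (Finset.mem_sdiff.mp (hYs hy)).2
  have hWdisj : Disjoint Ws W := by
    rw [Finset.disjoint_left]
    intro y hy
    exact (Finset.mem_sdiff.mp (hS' (hWs hy))).2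
  -- the classes
  set clsY : α → Fin 3 := fun y => if y ∈ Y then 0 else if y ∈ Ys then 1 else 2 with hclsY
  set clsW : α → Fin 3 := fun y => if y ∈ W then 0 else if y ∈ Ws then 1 else 2 with hclsW
  have hY0 : ∀ y, clsY y = 0 ↔ y ∈ Y := by
    intro y; simp only [hclsY]
    split_ifs with h1 h2
    · simp [h1]
    · simp [h1]
    · simp [h1]
  have hY1 : ∀ y, clsY y = 1 ↔ y ∈ Ys := by
    intro y; simp only [hclsY]
    split_ifs with h1 h2
    · have : y ∉ Ys := fun h => (Finset.disjoint_left.mp hYdisj h) h1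
      simp [this]
    · simp [h2]
    · simp [h2]
  have hW0 : ∀ y, clsW y = 0 ↔ y ∈ W := by
    intro y; simp only [hclsW]
    split_ifs with h1 h2
    · simp [h1]
    · simp [h1]
    · simp [h1]
  have hW1 : ∀ y, clsW y = 1 ↔ y ∈ Ws := by
    intro y; simp only [hclsW]
    split_ifs with h1 h2
    · have : y ∉ Ws := fun h => (Finset.disjoint_left.mp hWdisj h) h1
      simp [this]
    · simp [h2]
    · simp [h2]
  have hcls : ∀ c : Fin 3, c = 0 ∨ c = 1 ∨ c = 2 := by decide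
  have hY0c : (univ.filter (fun x => clsY x = 0)).card = k := by
    rw [← hYcard]; congr 1; ext y; simp [hY0]
  have hY1c : (univ.filter (fun x => clsY x = 1)).card = k := by
    rw [← hYscard]; congr 1; ext y; simp [hY1]
  have hW0c : (univ.filter (fun x => clsW x = 0)).card = k := by
    rw [← hWcard]; congr 1; ext y; simp [hW0]
  have hW1c : (univ.filter (fun x => clsW x = 1)).card = k := by
    rw [← hWscard]; congr 1; ext y; simp [hW1]
  have hthree : ∀ cls : α → Fin 3, (univ.filter (fun x => cls x = 0)).card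
      + (univ.filter (fun x => cls x = 1)).card + (univ.filter (fun x => cls x = 2)).card
      = q ^ 2 := by
    intro cls
    rw [← hα, ← Finset.card_univ (α := α)]
    have := Finset.card_eq_sum_card_fiberwise (s := (univ : Finset α)) (t := (univ : Finset (Fin 3)))
      (f := cls) (fun a _ => Finset.mem_coe.mpr (Finset.mem_univ _))
    rw [this, Fin.sum_univ_three]
  set l := q ^ 2 - 2 * k with hl
  have hlpos : 0 < l := by
    have : 0 < q ^ 2 := by positivity
    omega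
  have hl2 : q ^ 2 ≤ 2 * l := by omega
  have hY2c : l ≤ (univ.filter (fun x => clsY x = 2)).card := by
    have := hthree clsY
    omega
  have hW2c : l ≤ (univ.filter (fun x => clsW x = 2)).card := by
    have := hthree clsW
    omega
  have hAY : (A.filter (fun a => clsY a.2.1 = 1)).card ≤ k * D := by
    have h1 := card_over A (fun a => a.2.1) Ys D (fun y hy =>
      (mem_filter.mp (Finset.mem_sdiff.mp (hYs hy)).1).2)
    rw [hYscard] at h1
    refine le_trans (Finset.card_le_card ?_) h1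
    intro a ha
    rw [mem_filter] at ha ⊢
    exact ⟨ha.1, (hY1 _).mp ha.2⟩
  have hAW : (A.filter (fun a => clsW a.2.2 = 1)).card ≤ k * D := by
    have h1 := card_over A (fun a => a.2.2) Ws D (fun y hy =>
      (mem_filter.mp (Finset.mem_sdiff.mp (hS' (hWs hy))).1).2)
    rw [hWscard] at h1
    refine le_trans (Finset.card_le_card ?_) h1
    intro a ha
    rw [mem_filter] at ha ⊢
    exact ⟨ha.1, (hW1 _).mp ha.2⟩
  have hemp : ∀ a ∈ A, ¬ (clsY a.2.1 = 1 ∧ clsW a.2.2 = 1) := by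
    rintro ⟨i, y, z⟩ ha ⟨h1, h2⟩
    exact hempty y ((hY1 _).mp h1) z (hWs ((hW1 _).mp h2)) ⟨i, ha⟩
  obtain ⟨g₂, hg₂, g₃, hg₃, hconf⟩ := exists_pair A clsY clsW k l D (C * q ^ 3) hkpos hlpos
    hY0c hY1c hY2c hW0c hW1c hW2c hA hAY hAW hemp
  rw [mem_fam] at hg₂ hg₃
  -- the number of conflicts
  have hconf' : (conflicts A g₂ g₃).card ≤ L * q ^ 2 := by
    have hlr : (q : ℝ) ^ 2 / 2 ≤ l := by
      have : (q : ℝ) ^ 2 ≤ 2 * l := by exact_mod_cast hl2
      linarith
    have hq2pos : (0 : ℝ) < (q : ℝ) ^ 2 / 2 := by positivity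
    have e1 : ((C * q ^ 3 : ℕ) : ℝ) ^ 2 / (l : ℝ) ^ 2 ≤ 4 * (C : ℝ) ^ 2 * (q : ℝ) ^ 2 := by
      calc ((C * q ^ 3 : ℕ) : ℝ) ^ 2 / (l : ℝ) ^ 2
          ≤ ((C * q ^ 3 : ℕ) : ℝ) ^ 2 / ((q : ℝ) ^ 2 / 2) ^ 2 := by gcongr
        _ = 4 * (C : ℝ) ^ 2 * (q : ℝ) ^ 2 := by
            rw [div_eq_iff (by positivity)]; push_cast; ring
    have e2 : 4 * ((C * q ^ 3 : ℕ) : ℝ) * D / l ≤ 32 * (C : ℝ) ^ 2 * (q : ℝ) ^ 2 := by
      calc 4 * ((C * q ^ 3 : ℕ) : ℝ) * D / l ≤ 4 * ((C * q ^ 3 : ℕ) : ℝ) * D / ((q : ℝ) ^ 2 / 2) := by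
            gcongr
        _ = 32 * (C : ℝ) ^ 2 * (q : ℝ) ^ 2 := by rw [hD]; push_cast; field_simp; ring
    have e3 : 2 * (D : ℝ) ^ 2 = 32 * (C : ℝ) ^ 2 * (q : ℝ) ^ 2 := by rw [hD]; push_cast; ring
    have : ((conflicts A g₂ g₃).card : ℝ) ≤ ((L * q ^ 2 : ℕ) : ℝ) := by
      rw [hL]; push_cast
      linarith
    exact_mod_cast this
  -- the bad pairs
  set bad : α → α → Prop := fun i j => ∃ y z, (i, y, z) ∈ A ∧ (j, g₂ y, g₃ z) ∈ A with hbad
  have hbadcard : (univ.filter (fun p : α × α => bad p.1 p.2)).card ≤ L * q ^ 2 := by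
    refine le_trans (le_trans (Finset.card_le_card ?_)
      (Finset.card_image_le (f := fun p : (α × α × α) × (α × α × α) => (p.1.1, p.2.1))
        (s := conflicts A g₂ g₃))) hconf'
    rintro ⟨i, j⟩ hp
    obtain ⟨y, z, h1, h2⟩ := (mem_filter.mp hp).2
    rw [Finset.mem_image]
    refine ⟨((i, y, z), (j, g₂ y, g₃ z)), ?_, rfl⟩
    rw [conflicts, mem_filter, Finset.mem_product]
    exact ⟨⟨h1, h2⟩, rfl, rfl⟩
  -- rows and columns of light slices
  have hIY : ∀ i ∈ I₀, ∀ y z, (i, y, z) ∈ A → y ∈ Y ∧ z ∈ W := by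
    intro i hi y z h
    have h1 : (i, y, z) ∈ A.filter (fun a => a.1 ∈ I₀) := mem_filter.mpr ⟨h, hi⟩
    exact ⟨hY (Finset.mem_image.mpr ⟨_, h1, rfl⟩), hW (Finset.mem_image.mpr ⟨_, h1, rfl⟩)⟩
  have tau0 : tau 0 = 1 := by decide
  have tau1 : tau 1 = 0 := by decide
  have taueq : ∀ c : Fin 3, tau c = 0 → c = 1 := by decide
  have hgood1 : ∀ i ∈ I₀, ∀ j, ¬ bad i j := by
    rintro i hi j ⟨y, z, h1, h2⟩
    obtain ⟨hy, hz⟩ := hIY i hi y z h1
    refine hemp _ h2 ⟨?_, ?_⟩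
    · change clsY (g₂ y) = 1
      rw [hg₂, (hY0 y).mpr hy, tau0]
    · change clsW (g₃ z) = 1
      rw [hg₃, (hW0 z).mpr hz, tau0]
  have hgood2 : ∀ j ∈ I₀, ∀ i, ¬ bad i j := by
    rintro j hj i ⟨y, z, h1, h2⟩
    obtain ⟨hy, hz⟩ := hIY j hj _ _ h2
    refine hemp _ h1 ⟨?_, ?_⟩
    · change clsY y = 1
      apply taueq
      rw [← hg₂, (hY0 _).mpr hy]
    · change clsW z = 1
      apply taueq
      rw [← hg₃, (hW0 _).mpr hz]
  obtain ⟨g₁, hg₁⟩ := hall_step bad I₀ hgood1 hgood2 (by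
    refine lt_of_le_of_lt hbadcard ?_
    rw [hI₀card, hα]
    have hLq : L ≤ q ^ 2 := by omega
    obtain ⟨t, ht⟩ : ∃ t, q ^ 2 = L + t := ⟨q ^ 2 - L, by omega⟩
    rw [ht] at hq3 ⊢
    have h8 : L + t - L = t := by omega
    have h9 : L ^ 2 < t := by omega
    rw [h8]
    calc L * (L + t) = L ^ 2 + L * t := by ring
      _ < t + L * t := by omega
      _ = (L + 1) * t := by ring)
  refine ⟨g₁, g₂, g₃, ?_⟩
  rintro ⟨i, y, z⟩ ha hcon
  exact hg₁ i ⟨y, z, ha, hcon⟩

/-- For every `C` and all large `q`, every subset of `α³` (`|α| = q²`) with at most `C q³` elements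
is separated from itself by some element of `Sym(α)³`. -/
theorem main (C : ℕ) : ∃ q₀ : ℕ, ∀ q ≥ q₀, ∀ (α : Type) [Fintype α] [DecidableEq α],
    Fintype.card α = q ^ 2 → ∀ A : Finset (α × α × α), A.card ≤ C * q ^ 3 →
    ∃ g₁ g₂ g₃ : Equiv.Perm α, ∀ a ∈ A, (g₁ a.1, g₂ a.2.1, g₃ a.2.2) ∉ A := by
  set C' := C + 1 with hC'
  set L := 68 * C' ^ 2 with hL
  obtain ⟨n, hn⟩ := exists_nat_ge (8 * (L : ℝ) * C' * Real.exp (128 * L * C' ^ 2))
  refine ⟨n + 16 * L * C' + 32 * C' + L + 1, ?_⟩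
  intro q hq α _ _ hα A hA
  refine main_explicit C' q L (by omega) hL (by omega) (by omega) ?_ ?_ hα A ?_
  · have : L + 1 ≤ q := by omega
    nlinarith
  · refine le_trans hn ?_
    have : n ≤ q := by omega
    exact_mod_cast this
  · refine le_trans hA ?_
    exact Nat.mul_le_mul_right _ (by omega)

end Pool.Agent.Helper75.Sep
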